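import Mathlib
import Pool.Agent.H864R3.Chern3

set_option autoImplicit false

namespace Pool.Agent.Results.MP_c9aa11_ag.RankThree

open scoped ComplexOrder

/-- **The case `r = 3`, without the normalisations (ii) and (iii).** For every family
`B_{i j}` of complex `3 × 3` matrices such that `∑ ξ_i conj(ξ_j) B_{i j}` is positive definite for
every `ξ ≠ 0` (condition (i), that is, for every positive linear map `H : End(ℂ^3) → End(ℂ^3)`), the
signed sum of mixed discriminants `∑_σ sgn(σ) D(B_{1σ(1)}, B_{2σ(2)}, B_{3σ(3)})` is a positive real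
number. The mixed discriminant is written out as
`D(M_1,M_2,M_3) = (1/3!) ∑_{α,ρ} sgn(α) sgn(ρ) ∏_k (M_k)_{α(k) ρ(k)}`. -/
theorem result (B : Fin 3 → Fin 3 → Matrix (Fin 3) (Fin 3) ℂ)
    (hB : ∀ ξ : Fin 3 → ℂ, ξ ≠ 0 →
      (∑ i : Fin 3, ∑ j : Fin 3, (ξ i * star (ξ j)) • B i j).PosDef) :
    0 < ∑ σ : Equiv.Perm (Fin 3),
      ((Equiv.Perm.sign σ : ℤ) : ℂ) *
        ((1 / (Nat.factorial 3 : ℂ)) *
          ∑ α : Equiv.Perm (Fin 3), ∑ ρ : Equiv.Perm (Fin 3),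
            ((Equiv.Perm.sign α : ℤ) : ℂ) * ((Equiv.Perm.sign ρ : ℤ) : ℂ) *
              ∏ k : Fin 3, B k (σ k) (α k) (ρ k)) := by
  have h := H864R3.core_pos (B := B) hB
  have h6 := mul_pos H864R3.sixth_pos h
  have e : ∑ σ : Equiv.Perm (Fin 3),
      ((Equiv.Perm.sign σ : ℤ) : ℂ) *
        ((1 / (Nat.factorial 3 : ℂ)) *
          ∑ α : Equiv.Perm (Fin 3), ∑ ρ : Equiv.Perm (Fin 3),
            ((Equiv.Perm.sign α : ℤ) : ℂ) * ((Equiv.Perm.sign ρ : ℤ) : ℂ) *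
              ∏ k : Fin 3, B k (σ k) (α k) (ρ k)) = 1 / 6 * H864R3.Phi6 B := by
    unfold H864R3.Phi6
    rw [Finset.mul_sum]
    refine Finset.sum_congr rfl fun σ _ => ?_
    have h3 : (1 / (Nat.factorial 3 : ℂ)) = 1 / 6 := by norm_num [Nat.factorial]
    rw [h3]
    ring
  rw [e]
  exact h6

end Pool.Agent.Results.MP_c9aa11_ag.RankThree
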